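import Pool.Agent.Helper42.FR.Stmts

/-! Row HH: the local permutation. -/

set_option autoImplicit false

namespace Pool.Agent.Helper17.FR

abbrev NN (k q : ℕ) : Type := (Fin 4 × (Fin k × Fin q)) ⊕ ((Fin k × Fin k) ⊕ Unit)

def lab {k q : ℕ} : NN k q → ℕ
  | Sum.inl (j, _) => j
  | Sum.inr (Sum.inl _) => 4
  | Sum.inr (Sum.inr _) => 5

def ff {k q : ℕ} (h : k ≤ q) : (Fin 3 × (Fin k × Fin q)) ⊕ (Fin k × Fin k) → NN k q
  | Sum.inl (j, u) => Sum.inl (j.castSucc, u)
  | Sum.inr (a, b) => Sum.inl (3, (a, Fin.castLE h b))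

def gg {k q : ℕ} : (Fin 3 × (Fin k × Fin q)) ⊕ (Fin k × Fin k) → NN k q
  | Sum.inl (j, u) => Sum.inl (j.succ, u)
  | Sum.inr v => Sum.inr (Sum.inl v)

theorem ff_inj {k q : ℕ} (h : k ≤ q) : Function.Injective (ff (k := k) (q := q) h) := by
  rintro (⟨j, u⟩ | ⟨a, b⟩) (⟨j', u'⟩ | ⟨a', b'⟩) he
  · simp only [ff, Sum.inl.injEq, Prod.mk.injEq] at he
    rw [Fin.castSucc_injective _ he.1, he.2]
  · simp only [ff, Sum.inl.injEq, Prod.mk.injEq] at he
    have h1 := congrArg Fin.val he.1
    have h2 := j.2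
    simp at h1
    omega
  · simp only [ff, Sum.inl.injEq, Prod.mk.injEq] at he
    have h1 := congrArg Fin.val he.1
    have h2 := j'.2
    simp at h1
    omega
  · simp only [ff, Sum.inl.injEq, Prod.mk.injEq] at he
    rw [he.2.1, Fin.castLE_injective h he.2.2]

theorem gg_inj {k q : ℕ} : Function.Injective (gg (k := k) (q := q)) := by
  rintro (⟨j, u⟩ | v) (⟨j', u'⟩ | v') he
  · simp only [gg, Sum.inl.injEq, Prod.mk.injEq] at he
    rw [Fin.succ_injective _ he.1, he.2]
  · simp [gg] at he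
  · simp [gg] at he
  · simp only [gg, Sum.inr.injEq, Sum.inl.injEq] at he
    rw [he]

theorem lab_lt {k q : ℕ} (x : NN k q) (j : Fin 4) (h : lab x = j) :
    ∃ u, x = Sum.inl (j, u) := by
  rcases x with ⟨i, u⟩ | v | w
  · simp only [lab] at h
    exact ⟨u, by rw [Fin.ext h]⟩
  · simp only [lab] at h
    have := j.2
    omega
  · simp only [lab] at h
    have := j.2
    omega

theorem lab_four {k q : ℕ} (x : NN k q) (h : lab x = 4) : ∃ v, x = Sum.inr (Sum.inl v) := by
  rcases x with ⟨i, u⟩ | v | w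
  · simp only [lab] at h
    have := i.2
    omega
  · exact ⟨v, rfl⟩
  · simp only [lab] at h
    omega

theorem lab_five {k q : ℕ} (x : NN k q) (h : ∀ i : Fin 5, lab x ≠ i) :
    x = Sum.inr (Sum.inr ()) := by
  rcases x with ⟨i, u⟩ | v | w
  · exact absurd rfl (h ⟨i, by have := i.2; omega⟩)
  · exact absurd rfl (h 4)
  · rfl

theorem st_HH : Pool.Agent.Helper42.FR.ST_HH := by
  classical
  intro q k hkq hq
  have hcard : Fintype.card (NN k q) = Fintype.card (Fin q × Fin q) := by
    simp only [NN, Fintype.card_sum, Fintype.card_prod, Fintype.card_fin, Fintype.card_unit]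
    linarith
  obtain ⟨e0⟩ : Nonempty (NN k q ≃ Fin q × Fin q) := ⟨Fintype.equivOfCardEq hcard⟩
  obtain ⟨σ, hσ⟩ := Equiv.Perm.exists_extending_pair
    (fun u : Fin k × Fin q => e0 (Sum.inl (0, u)))
    (fun u : Fin k × Fin q => (Fin.castLE hkq u.1, u.2))
    (fun u v huv => by
      have := e0.injective huv
      simpa using this)
    (fun u v huv => by
      simp only [Prod.mk.injEq] at huv
      exact Prod.ext (Fin.castLE_injective hkq huv.1) huv.2)
  obtain ⟨e, he⟩ : ∃ e : NN k q ≃ Fin q × Fin q,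
      ∀ u, e (Sum.inl (0, u)) = (Fin.castLE hkq u.1, u.2) := ⟨e0.trans σ, hσ⟩
  obtain ⟨P, hP⟩ := Equiv.Perm.exists_extending_pair (ff (k := k) (q := q) hkq) gg
    (ff_inj hkq) gg_inj
  have P0 : ∀ u, P (Sum.inl (0, u)) = Sum.inl (1, u) := fun u => hP (Sum.inl (0, u))
  have P1 : ∀ u, P (Sum.inl (1, u)) = Sum.inl (2, u) := fun u => hP (Sum.inl (1, u))
  have P2 : ∀ u, P (Sum.inl (2, u)) = Sum.inl (3, u) := fun u => hP (Sum.inl (2, u))
  have P3 : ∀ v : Fin k × Fin k, P (Sum.inl (3, (v.1, Fin.castLE hkq v.2))) =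
      Sum.inr (Sum.inl v) := fun v => hP (Sum.inr v)
  have hstep : ∀ (i j : Fin 4), (∀ u, P (Sum.inl (i, u)) = Sum.inl (j, u)) → ∀ x : NN k q,
      lab (P x) = j ↔ lab x = i := by
    intro i j hij x
    constructor
    · intro h
      obtain ⟨u, hu⟩ := lab_lt (P x) j h
      rw [← hij u] at hu
      rw [P.injective hu]
      rfl
    · intro h
      obtain ⟨u, hu⟩ := lab_lt x i h
      rw [hu, hij u]
      rfl
  refine ⟨(e.symm.trans P).trans e, fun i => Finset.univ.filter fun y => lab (e.symm y) = i,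
    ?_, ?_, ?_, ?_, ?_, ?_, ?_⟩
  · intro y
    simp only [Finset.mem_filter, Finset.mem_univ, true_and]
    constructor
    · intro h
      obtain ⟨u, hu⟩ := lab_lt (e.symm y) 0 h
      have h1 : y = e (Sum.inl (0, u)) := by rw [← hu]; simp
      rw [h1, he]
      exact u.1.2
    · intro h
      have h1 : y = e (Sum.inl (0, (⟨y.1, h⟩, y.2))) := by
        rw [he]
        exact Prod.ext (Fin.ext rfl) rfl
      rw [h1, Equiv.symm_apply_apply]
      rfl
  · intro y
    simp only [Finset.mem_filter, Finset.mem_univ, true_and, Equiv.trans_apply,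
      Equiv.symm_apply_apply]
    exact hstep 0 1 P0 _
  · intro y
    simp only [Finset.mem_filter, Finset.mem_univ, true_and, Equiv.trans_apply,
      Equiv.symm_apply_apply]
    exact hstep 1 2 P1 _
  · intro y
    simp only [Finset.mem_filter, Finset.mem_univ, true_and, Equiv.trans_apply,
      Equiv.symm_apply_apply]
    exact hstep 2 3 P2 _
  · intro y
    simp only [Finset.mem_filter, Finset.mem_univ, true_and, Equiv.trans_apply,
      Equiv.symm_apply_apply]
    have P4 : ∀ v : Fin k × Fin k, P (P (P (P (Sum.inl (0, (v.1, Fin.castLE hkq v.2)))))) =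
        Sum.inr (Sum.inl v) := fun v => by rw [P0, P1, P2, P3]
    constructor
    · intro h
      obtain ⟨v, hv⟩ := lab_four _ h
      rw [← P4 v] at hv
      have h1 := P.injective (P.injective (P.injective (P.injective hv)))
      have h2 : y = e (Sum.inl (0, (v.1, Fin.castLE hkq v.2))) := by rw [← h1]; simp
      rw [h2, he]
      exact ⟨v.1.2, v.2.2⟩
    · rintro ⟨h1, h2⟩
      have h3 : y = e (Sum.inl (0, ((⟨y.1, h1⟩ : Fin k), Fin.castLE hkq ⟨y.2, h2⟩))) := by
        rw [he]
        exact Prod.ext (Fin.ext rfl) (Fin.ext rfl)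
      rw [h3, Equiv.symm_apply_apply, P4 (⟨y.1, h1⟩, ⟨y.2, h2⟩)]
      rfl
  · intro i j hij
    rw [Finset.disjoint_left]
    intro y hy hy'
    have h1 := (Finset.mem_filter.1 hy).2
    have h2 := (Finset.mem_filter.1 hy').2
    exact hij (Fin.ext (h1.symm.trans h2))
  · rw [Finset.card_le_one]
    have key : ∀ y, y ∈ Finset.univ \ (Finset.univ.biUnion fun i : Fin 5 =>
        Finset.univ.filter fun y : Fin q × Fin q => lab (e.symm y) = i) →
        y = e (Sum.inr (Sum.inr ())) := by
      intro y hy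
      have h1 : e.symm y = Sum.inr (Sum.inr ()) := by
        apply lab_five
        intro i hi
        rw [Finset.mem_sdiff] at hy
        exact hy.2 (Finset.mem_biUnion.2 ⟨i, Finset.mem_univ _,
          Finset.mem_filter.2 ⟨Finset.mem_univ _, hi⟩⟩)
      rw [← h1]
      simp
    intro a ha b hb
    rw [key a ha, key b hb]

end Pool.Agent.Helper17.FR
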