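import Pool.Agent.Helper42.FR.Stmts

/-! Row UP: approximate solutions. -/

set_option autoImplicit false

namespace Pool.Agent.Helper17.FR

open Matrix Pool.Agent.Helper81.Fmr Pool.Agent.Helper42.FR

universe u

theorem inv_ap {α : Type} (σ : Equiv.Perm α) (a : α) : σ⁻¹ (σ a) = a := σ.symm_apply_apply a

theorem ap_inv {α : Type} (σ : Equiv.Perm α) (a : α) : σ (σ⁻¹ a) = a := σ.apply_symm_apply a

/-- indicator -/
noncomputable def ind (F : Type u) [Field F] (P : Prop) : F :=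
  haveI := Classical.propDecidable P
  if P then 1 else 0

theorem ind_congr {F : Type u} [Field F] {P Q : Prop} (h : P ↔ Q) : ind F P = ind F Q := by
  rw [propext h]

theorem ind_pos {F : Type u} [Field F] {P : Prop} (h : P) : ind F P = 1 := by
  unfold ind
  exact if_pos h

theorem ind_neg {F : Type u} [Field F] {P : Prop} (h : ¬ P) : ind F P = 0 := by
  unfold ind
  exact if_neg h

theorem ind_mul {F : Type u} [Field F] {P Q : Prop} : ind F P * ind F Q = ind F (P ∧ Q) := by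
  by_cases hP : P
  · by_cases hQ : Q
    · rw [ind_pos hP, ind_pos hQ, ind_pos ⟨hP, hQ⟩, one_mul]
    · rw [ind_neg hQ, ind_neg (P := P ∧ Q) (fun h => hQ h.2), mul_zero]
  · rw [ind_neg hP, ind_neg (P := P ∧ Q) (fun h => hP h.1), zero_mul]

/-- monomial matrix -/
def mon {F : Type u} [Field F] {B : Type} [DecidableEq B] (φ : B → B) (w : B → F) :
    Matrix B B F := fun a c => if a = φ c then w c else 0

theorem mon_mul {F : Type u} [Field F] {B : Type} [DecidableEq B] [Fintype B]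
    (φ1 φ2 : B → B) (w1 w2 : B → F) (a c : B) :
    (mon φ1 w1 * mon φ2 w2) a c = if a = φ1 (φ2 c) then w1 (φ2 c) * w2 c else 0 := by
  rw [Matrix.mul_apply, Finset.sum_eq_single (φ2 c)]
  · simp only [mon, if_true]
    split_ifs <;> simp
  · intro d _ hd
    simp only [mon, if_neg hd, mul_zero]
  · intro h
    exact absurd (Finset.mem_univ _) h

theorem mon_ok {F : Type u} [Field F] {B : Type} [DecidableEq B] [Fintype B]
    (φ1 φ2 φ3 : B → B) (w1 w2 w3 : B → F) (c : B) (h1 : w1 (φ2 c) * w2 c = w3 c)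
    (h2 : w3 c = 0 ∨ φ1 (φ2 c) = φ3 c) (a : B) :
    (mon φ1 w1 * mon φ2 w2) a c = mon φ3 w3 a c := by
  rw [mon_mul, h1]
  rcases h2 with h | h
  · simp only [mon, h, ite_self]
  · simp only [mon, h]

section
variable {G Y : Type} [DecidableEq Y] {q : ℕ}

/-- the value at the two sites -/
def pa (s : Equiv.Perm G) (x : G → Y) (c : G × (Y → Fin q)) : Fin q × Fin q :=
  (c.2 (x c.1), c.2 (x (s c.1)))

/-- the local map -/
def hm (s : Equiv.Perm G) (x : G → Y) (H : Equiv.Perm (Fin q × Fin q))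
    (c : G × (Y → Fin q)) : G × (Y → Fin q) :=
  (c.1, Function.update (Function.update c.2 (x c.1) (H (pa s x c)).1) (x (s c.1))
    (H (pa s x c)).2)

/-- the moves -/
def sm (σ : Equiv.Perm G) (c : G × (Y → Fin q)) : G × (Y → Fin q) := (σ c.1, c.2)

/-- the element `k` -/
def kk (s t : Equiv.Perm G) : Equiv.Perm G := s⁻¹ * t * s * t⁻¹

/-- maps -/
def Ph (s t : Equiv.Perm G) (x : G → Y) (H : Equiv.Perm (Fin q × Fin q)) :
    Vr → G × (Y → Fin q) → G × (Y → Fin q)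
  | .s => sm s
  | .s' => sm s⁻¹
  | .t => sm t
  | .t' => sm t⁻¹
  | .h => hm s x H
  | .h' => hm s x H⁻¹
  | .k => sm (kk s t)
  | .se => sm s
  | .es => sm s
  | .ts => sm (t * s)
  | .sk => sm (s * kk s t)
  | .st => sm (s * t)
  | .kst => sm (s * t * kk s t)
  | .hst => fun c => sm (s * t) (hm s x H c)
  | .est => sm (s * t)
  | .te1 => sm t
  | .ke1 => sm (kk s t)
  | .he1 => hm s x H
  | .hE _ => hm s x H
  | .hG _ => hm s x H
  | _ => id

/-- both values small -/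
def qb (k : ℕ) (u : Fin q × Fin q) : Prop := (u.1 : ℕ) < k ∧ (u.2 : ℕ) < k

/-- weights -/
noncomputable def Wt (F : Type u) [Field F] (k : ℕ) (s : Equiv.Perm G) (x : G → Y)
    (H : Equiv.Perm (Fin q × Fin q)) (A : Fin 5 → Finset (Fin q × Fin q)) :
    Vr → G × (Y → Fin q) → F
  | .zero => fun _ => 0
  | .e => fun c => ind F ((c.2 (x c.1) : ℕ) < k)
  | .e1 => fun c => ind F ((c.2 (x (s⁻¹ c.1)) : ℕ) < k)
  | .em => fun c => ind F ((c.2 (x (s c.1)) : ℕ) < k)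
  | .se => fun c => ind F ((c.2 (x c.1) : ℕ) < k)
  | .es => fun c => ind F ((c.2 (x (s c.1)) : ℕ) < k)
  | .est => fun c => ind F ((c.2 (x c.1) : ℕ) < k)
  | .te1 => fun c => ind F ((c.2 (x (s⁻¹ c.1)) : ℕ) < k)
  | .ke1 => fun c => ind F ((c.2 (x (s⁻¹ c.1)) : ℕ) < k)
  | .he1 => fun c => ind F ((c.2 (x (s⁻¹ c.1)) : ℕ) < k)
  | .ee1 => fun c => ind F ((c.2 (x c.1) : ℕ) < k) * ind F ((c.2 (x (s⁻¹ c.1)) : ℕ) < k)
  | .q => fun c => ind F (qb k (pa s x c))
  | .E i => fun c => ind F (pa s x c ∈ A i)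
  | .G 0 => fun c => ind F (qb k (H⁻¹ (pa s x c)))
  | .G 1 => fun c => ind F (qb k (H⁻¹ (H⁻¹ (pa s x c))))
  | .G 2 => fun c => ind F (qb k (H⁻¹ (H⁻¹ (H⁻¹ (pa s x c)))))
  | .hE 0 => fun c => ind F (pa s x c ∈ A 0)
  | .hE 1 => fun c => ind F (pa s x c ∈ A 1)
  | .hE 2 => fun c => ind F (pa s x c ∈ A 2)
  | .hG 0 => fun c => ind F (qb k (pa s x c))
  | .hG 1 => fun c => ind F (qb k (H⁻¹ (pa s x c)))
  | .hG 2 => fun c => ind F (qb k (H⁻¹ (H⁻¹ (pa s x c))))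
  | .hG 3 => fun c => ind F (qb k (H⁻¹ (H⁻¹ (H⁻¹ (pa s x c)))))
  | .n i => fun c => ind F (pa s x c ∈ A i) - 1
  | .p 0 => fun c => (ind F (pa s x c ∈ A 0) - 1) * (ind F (pa s x c ∈ A 1) - 1)
  | .p 1 => fun c => (ind F (pa s x c ∈ A 0) - 1) * (ind F (pa s x c ∈ A 1) - 1) *
      (ind F (pa s x c ∈ A 2) - 1)
  | .p 2 => fun c => (ind F (pa s x c ∈ A 0) - 1) * (ind F (pa s x c ∈ A 1) - 1) *
      (ind F (pa s x c ∈ A 2) - 1) * (ind F (pa s x c ∈ A 3) - 1)
  | _ => fun _ => 1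

theorem pa_hm (s : Equiv.Perm G) (x : G → Y) (H : Equiv.Perm (Fin q × Fin q))
    (c : G × (Y → Fin q)) (h : x c.1 ≠ x (s c.1)) : pa s x (hm s x H c) = H (pa s x c) := by
  unfold pa hm
  refine Prod.ext ?_ ?_
  · show Function.update (Function.update c.2 (x c.1) _) (x (s c.1)) _ (x c.1) = _
    rw [Function.update_of_ne h, Function.update_self]
    rfl
  · show Function.update (Function.update c.2 (x c.1) _) (x (s c.1)) _ (x (s c.1)) = _
    rw [Function.update_self]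
    rfl

theorem hm_other (s : Equiv.Perm G) (x : G → Y) (H : Equiv.Perm (Fin q × Fin q))
    (c : G × (Y → Fin q)) (y : Y) (h1 : y ≠ x c.1) (h2 : y ≠ x (s c.1)) :
    (hm s x H c).2 y = c.2 y := by
  show Function.update (Function.update c.2 (x c.1) _) (x (s c.1)) _ y = _
  rw [Function.update_of_ne h2, Function.update_of_ne h1]

theorem hm_hm (s : Equiv.Perm G) (x : G → Y) (H K : Equiv.Perm (Fin q × Fin q))
    (hK : ∀ u, H (K u) = u) (c : G × (Y → Fin q)) (h : x c.1 ≠ x (s c.1)) :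
    hm s x H (hm s x K c) = c := by
  have h1 := pa_hm s x K c h
  have h2 : pa s x (hm s x H (hm s x K c)) = pa s x c := by
    rw [pa_hm s x H (hm s x K c) h, h1, hK]
  refine Prod.ext rfl (funext fun y => ?_)
  by_cases hy1 : y = x c.1
  · subst hy1
    exact congrArg Prod.fst h2
  · by_cases hy2 : y = x (s c.1)
    · subst hy2
      exact congrArg Prod.snd h2
    · rw [hm_other s x H (hm s x K c) y hy1 hy2, hm_other s x K c y hy1 hy2]

/-- all conditions on a site -/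
structure GoodS (s t : Equiv.Perm G) (x : G → Y) (g : G) : Prop where
  a1 : x g ≠ x (s g)
  a2 : x g ≠ x (s⁻¹ g)
  a3 : x (s g) ≠ x (s⁻¹ g)
  a4 : x (s (t g)) = x g
  a5 : x (s (s (t g))) = x (s g)
  a6 : x (s⁻¹ (t g)) = x (s⁻¹ g)
  a7 : x (s⁻¹ (s⁻¹ (t (s (t⁻¹ g))))) = x (s⁻¹ g)
  a8 : s⁻¹ (t (s (t⁻¹ (s (t g))))) = s (t (s⁻¹ (t (s (t⁻¹ g)))))

/-- the condition for one product -/
def OKp (F : Type u) [Field F] (k : ℕ) (s t : Equiv.Perm G) (x : G → Y)
    (H : Equiv.Perm (Fin q × Fin q)) (A : Fin 5 → Finset (Fin q × Fin q))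
    (c : G × (Y → Fin q)) (v : Vr × Vr × Vr) : Prop :=
  Wt F k s x H A v.1 (Ph s t x H v.2.1 c) * Wt F k s x H A v.2.1 c = Wt F k s x H A v.2.2 c ∧
    (Wt F k s x H A v.2.2 c = 0 ∨ Ph s t x H v.1 (Ph s t x H v.2.1 c) = Ph s t x H v.2.2 c)

theorem ok_all (F : Type u) [Field F] (k : ℕ) (s t : Equiv.Perm G) (x : G → Y)
    (H : Equiv.Perm (Fin q × Fin q)) (A : Fin 5 → Finset (Fin q × Fin q))
    (c : G × (Y → Fin q)) (hg : GoodS s t x c.1)
    (hA0 : ∀ y, y ∈ A 0 ↔ (y.1 : ℕ) < k) (hA1 : ∀ y, H y ∈ A 1 ↔ y ∈ A 0)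
    (hA2 : ∀ y, H y ∈ A 2 ↔ y ∈ A 1) (hA3 : ∀ y, H y ∈ A 3 ↔ y ∈ A 2)
    (hA4 : ∀ y, H (H (H (H y))) ∈ A 4 ↔ ((y.1 : ℕ) < k ∧ (y.2 : ℕ) < k))
    (hdis : ∀ i j, i ≠ j → Disjoint (A i) (A j)) (hc : ∃ i, pa s x c ∈ A i) :
    ∀ v ∈ pr, OKp F k s t x H A c v := by
  have hpa := pa_hm s x H c hg.a1
  have hEE : ∀ i j : Fin 5, i ≠ j → OKp F k s t x H A c (.E i, .E j, .zero) := by
    intro i j hij
    refine ⟨?_, Or.inl rfl⟩
    show ind F (pa s x c ∈ A i) * ind F (pa s x c ∈ A j) = 0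
    rw [ind_mul]
    exact ind_neg fun h => Finset.disjoint_left.1 (hdis i j hij) h.1 h.2
  unfold pr
  simp only [List.forall_mem_cons, List.not_mem_nil, IsEmpty.forall_iff, implies_true, and_true]
  refine ⟨?_, ?_, ?_, ?_, ?_, ?_, ?_, ?_, ?_, ?_, ?_, ?_, ?_, ?_, ?_, ?_, ?_, ?_, ?_, ?_, ?_,
    ?_, ?_, ?_, ?_, ?_, ?_, ?_, ?_, ?_, ?_, ?_, ?_, ?_, ?_, ?_, ?_, ?_, ?_, ?_, ?_, ?_, ?_, ?_,
    ?_, hEE 0 1 (by decide), hEE 0 2 (by decide), hEE 0 3 (by decide), hEE 0 4 (by decide),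
    hEE 1 0 (by decide), hEE 1 2 (by decide), hEE 1 3 (by decide), hEE 1 4 (by decide),
    hEE 2 0 (by decide), hEE 2 1 (by decide), hEE 2 3 (by decide), hEE 2 4 (by decide),
    hEE 3 0 (by decide), hEE 3 1 (by decide), hEE 3 2 (by decide), hEE 3 4 (by decide),
    hEE 4 0 (by decide), hEE 4 1 (by decide), hEE 4 2 (by decide), hEE 4 3 (by decide),
    ?_, ?_, ?_, ?_⟩
  -- s s' = 1
  · exact ⟨mul_one _, Or.inr (Prod.ext (by simp [Ph, sm]) rfl)⟩
  · exact ⟨mul_one _, Or.inr (Prod.ext (by simp [Ph, sm]) rfl)⟩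
  · exact ⟨mul_one _, Or.inr (Prod.ext (by simp [Ph, sm]) rfl)⟩
  · exact ⟨mul_one _, Or.inr (Prod.ext (by simp [Ph, sm]) rfl)⟩
  · exact ⟨mul_one _, Or.inr (hm_hm s x H H⁻¹ (fun u => by simp) c hg.a1)⟩
  · exact ⟨mul_one _, Or.inr (hm_hm s x H⁻¹ H (fun u => by simp) c hg.a1)⟩
  -- e e = e
  · refine ⟨?_, Or.inr rfl⟩
    show ind F _ * ind F _ = ind F _
    rw [ind_mul]
    exact ind_congr ⟨fun h => h.1, fun h => ⟨h, h⟩⟩
  -- s e = se
  · exact ⟨one_mul _, Or.inr rfl⟩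
  -- e1 s = se
  · refine ⟨?_, Or.inr rfl⟩
    show ind F _ * 1 = ind F _
    rw [mul_one]
    show ind F (((sm s c).2 (x (s⁻¹ (s c.1))) : ℕ) < k) = _
    rw [inv_ap]
    rfl
  -- e s = es
  · exact ⟨mul_one _, Or.inr rfl⟩
  -- s em = es
  · exact ⟨one_mul _, Or.inr rfl⟩
  -- t s = ts
  · exact ⟨mul_one _, Or.inr rfl⟩
  -- s k = sk
  · exact ⟨mul_one _, Or.inr rfl⟩
  -- sk t = ts
  · exact ⟨mul_one _, Or.inr (Prod.ext (by simp [Ph, sm, kk]) rfl)⟩
  -- s t = st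
  · exact ⟨mul_one _, Or.inr rfl⟩
  -- k st = kst
  · refine ⟨mul_one _, Or.inr (Prod.ext ?_ rfl)⟩
    show (s⁻¹ * t * s * t⁻¹) ((s * t) c.1) = (s * t * (s⁻¹ * t * s * t⁻¹)) c.1
    simpa using hg.a8
  -- st k = kst
  · exact ⟨mul_one _, Or.inr rfl⟩
  -- h st = hst
  · refine ⟨mul_one _, Or.inr (Prod.ext rfl ?_)⟩
    show Function.update (Function.update c.2 (x (s (t c.1))) (H (c.2 (x (s (t c.1))),
      c.2 (x (s (s (t c.1)))))).1) (x (s (s (t c.1)))) (H (c.2 (x (s (t c.1))),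
      c.2 (x (s (s (t c.1)))))).2 = (hm s x H c).2
    rw [hg.a4, hg.a5]
    rfl
  -- st h = hst
  · exact ⟨mul_one _, Or.inr rfl⟩
  -- e st = est
  · refine ⟨?_, Or.inr rfl⟩
    show ind F ((c.2 (x (s (t c.1))) : ℕ) < k) * 1 = ind F _
    rw [mul_one, hg.a4]
  -- st e = est
  · exact ⟨one_mul _, Or.inr rfl⟩
  -- t e1 = te1
  · exact ⟨one_mul _, Or.inr rfl⟩
  -- e1 t = te1
  · refine ⟨?_, Or.inr rfl⟩
    show ind F ((c.2 (x (s⁻¹ (t c.1))) : ℕ) < k) * 1 = ind F _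
    rw [mul_one, hg.a6]
  -- k e1 = ke1
  · exact ⟨one_mul _, Or.inr rfl⟩
  -- e1 k = ke1
  · refine ⟨?_, Or.inr rfl⟩
    show ind F ((c.2 (x (s⁻¹ (s⁻¹ (t (s (t⁻¹ c.1)))))) : ℕ) < k) * 1 = ind F _
    rw [mul_one, hg.a7]
  -- h e1 = he1
  · exact ⟨one_mul _, Or.inr rfl⟩
  -- e1 h = he1
  · refine ⟨?_, Or.inr rfl⟩
    show ind F (((hm s x H c).2 (x (s⁻¹ c.1)) : ℕ) < k) * 1 = ind F _
    rw [mul_one, hm_other s x H c _ hg.a2.symm hg.a3.symm]
  -- e e1 = ee1
  · exact ⟨rfl, Or.inr rfl⟩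
  -- e1 e = ee1
  · exact ⟨mul_comm _ _, Or.inr rfl⟩
  -- e em = q
  · exact ⟨ind_mul, Or.inr rfl⟩
  -- one e = E 0
  · refine ⟨?_, Or.inr rfl⟩
    show 1 * ind F _ = ind F _
    rw [one_mul]
    exact ind_congr (hA0 (pa s x c)).symm
  -- h E0 = hE0
  · exact ⟨one_mul _, Or.inr rfl⟩
  -- E1 h = hE0
  · refine ⟨?_, Or.inr rfl⟩
    show ind F (pa s x (hm s x H c) ∈ A 1) * 1 = ind F _
    rw [mul_one, hpa]
    exact ind_congr (hA1 _)
  · exact ⟨one_mul _, Or.inr rfl⟩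
  · refine ⟨?_, Or.inr rfl⟩
    show ind F (pa s x (hm s x H c) ∈ A 2) * 1 = ind F _
    rw [mul_one, hpa]
    exact ind_congr (hA2 _)
  · exact ⟨one_mul _, Or.inr rfl⟩
  · refine ⟨?_, Or.inr rfl⟩
    show ind F (pa s x (hm s x H c) ∈ A 3) * 1 = ind F _
    rw [mul_one, hpa]
    exact ind_congr (hA3 _)
  -- h q = hG0
  · exact ⟨one_mul _, Or.inr rfl⟩
  · refine ⟨?_, Or.inr rfl⟩
    show ind F (qb k (H⁻¹ (pa s x (hm s x H c)))) * 1 = ind F _
    rw [mul_one, hpa, inv_ap]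
  · exact ⟨one_mul _, Or.inr rfl⟩
  · refine ⟨?_, Or.inr rfl⟩
    show ind F (qb k (H⁻¹ (H⁻¹ (pa s x (hm s x H c))))) * 1 = ind F _
    rw [mul_one, hpa, inv_ap]
  · exact ⟨one_mul _, Or.inr rfl⟩
  · refine ⟨?_, Or.inr rfl⟩
    show ind F (qb k (H⁻¹ (H⁻¹ (H⁻¹ (pa s x (hm s x H c)))))) * 1 = ind F _
    rw [mul_one, hpa, inv_ap]
  · exact ⟨one_mul _, Or.inr rfl⟩
  · refine ⟨?_, Or.inr rfl⟩
    show ind F (pa s x (hm s x H c) ∈ A 4) * 1 = ind F (qb k (H⁻¹ (H⁻¹ (H⁻¹ (pa s x c)))))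
    rw [mul_one, hpa]
    refine ind_congr ?_
    have h := hA4 (H⁻¹ (H⁻¹ (H⁻¹ (pa s x c))))
    rw [ap_inv, ap_inv, ap_inv] at h
    exact h
  -- n
  · exact ⟨rfl, Or.inr rfl⟩
  · exact ⟨rfl, Or.inr rfl⟩
  · exact ⟨rfl, Or.inr rfl⟩
  · refine ⟨?_, Or.inl rfl⟩
    show (ind F (pa s x c ∈ A 0) - 1) * (ind F (pa s x c ∈ A 1) - 1) *
      (ind F (pa s x c ∈ A 2) - 1) * (ind F (pa s x c ∈ A 3) - 1) *
      (ind F (pa s x c ∈ A 4) - 1) = 0
    obtain ⟨i, hi⟩ := hc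
    have h1 : ind F (pa s x c ∈ A i) - 1 = 0 := by rw [ind_pos hi, sub_self]
    fin_cases i
    · rw [show ind F (pa s x c ∈ A 0) - 1 = 0 from h1]
      simp
    · rw [show ind F (pa s x c ∈ A 1) - 1 = 0 from h1]
      simp
    · rw [show ind F (pa s x c ∈ A 2) - 1 = 0 from h1]
      simp
    · rw [show ind F (pa s x c ∈ A 3) - 1 = 0 from h1]
      simp
    · rw [show ind F (pa s x c ∈ A 4) - 1 = 0 from h1]
      simp

end

theorem cnt {Y : Type} [Fintype Y] [DecidableEq Y] {q : ℕ} (a : Y) (T : Finset (Fin q)) :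
    (Finset.univ.filter fun y : Y → Fin q => y a ∈ T).card * q =
      T.card * q ^ Fintype.card Y := by
  classical
  have h1 : (Finset.univ.filter fun y : Y → Fin q => y a ∈ T) =
      Fintype.piFinset (fun i => if i = a then T else Finset.univ) := by
    ext y
    simp only [Finset.mem_filter, Finset.mem_univ, true_and, Fintype.mem_piFinset]
    constructor
    · intro h i
      by_cases hi : i = a
      · subst hi
        rw [if_pos rfl]
        exact h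
      · rw [if_neg hi]
        exact Finset.mem_univ _
    · intro h
      have h2 := h a
      rwa [if_pos rfl] at h2
  have h2 : ∏ i, (if i = a then T else (Finset.univ : Finset (Fin q))).card =
      T.card * ∏ _i ∈ Finset.univ.erase a, q := by
    rw [← Finset.mul_prod_erase Finset.univ _ (Finset.mem_univ a), if_pos rfl]
    refine congrArg _ (Finset.prod_congr rfl fun i hi => ?_)
    rw [if_neg (Finset.ne_of_mem_erase hi), Finset.card_univ, Fintype.card_fin]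
  have h3 : q ^ Fintype.card Y = q * ∏ _i ∈ Finset.univ.erase a, q := by
    rw [Finset.mul_prod_erase Finset.univ (fun _ => q) (Finset.mem_univ a), Finset.prod_const,
      Finset.card_univ]
  rw [h1, Fintype.card_piFinset, h2, h3]
  ring

theorem cnt2 {G Y : Type} [Fintype G] [DecidableEq G] [Fintype Y] [DecidableEq Y] {q : ℕ}
    (x : G → Y) (T : Finset (Fin q)) :
    (Finset.univ.filter fun c : G × (Y → Fin q) => c.2 (x c.1) ∈ T).card * q ≤
      T.card * Fintype.card (G × (Y → Fin q)) := by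
  classical
  have h1 : (Finset.univ.filter fun c : G × (Y → Fin q) => c.2 (x c.1) ∈ T) ⊆
      Finset.univ.biUnion fun g : G => (Finset.univ.filter fun y : Y → Fin q =>
        y (x g) ∈ T).image fun y => (g, y) := by
    rintro ⟨g, y⟩ hy
    exact Finset.mem_biUnion.2 ⟨g, Finset.mem_univ _, Finset.mem_image.2
      ⟨y, Finset.mem_filter.2 ⟨Finset.mem_univ _, (Finset.mem_filter.1 hy).2⟩, rfl⟩⟩
  have h2 := (Finset.card_le_card h1).trans Finset.card_biUnion_le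
  have h3 : (∑ g : G, ((Finset.univ.filter fun y : Y → Fin q =>
      y (x g) ∈ T).image fun y => (g, y)).card) * q ≤
      ∑ _g : G, T.card * q ^ Fintype.card Y := by
    rw [Finset.sum_mul]
    refine Finset.sum_le_sum fun g _ => ?_
    rw [← cnt (x g) T]
    exact Nat.mul_le_mul_right _ Finset.card_image_le
  refine (Nat.mul_le_mul_right _ h2).trans (h3.trans (le_of_eq ?_))
  rw [Finset.sum_const, Finset.card_univ, smul_eq_mul, Fintype.card_prod, Fintype.card_fun,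
    Fintype.card_fin]
  ring

theorem cnt3 {G Y : Type} [Fintype G] [DecidableEq G] [Fintype Y] [DecidableEq Y] {q : ℕ}
    (bad : Finset G) (N : ℕ) (h : bad.card * N ≤ Fintype.card G) :
    (Finset.univ.filter fun c : G × (Y → Fin q) => c.1 ∈ bad).card * N ≤
      Fintype.card (G × (Y → Fin q)) := by
  classical
  have h1 : (Finset.univ.filter fun c : G × (Y → Fin q) => c.1 ∈ bad) ⊆
      bad ×ˢ (Finset.univ : Finset (Y → Fin q)) := by
    intro c hc
    exact Finset.mem_product.2 ⟨(Finset.mem_filter.1 hc).2, Finset.mem_univ _⟩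
  have h2 := Finset.card_le_card h1
  rw [Finset.card_product, Finset.card_univ] at h2
  rw [Fintype.card_prod]
  calc _ ≤ (bad.card * Fintype.card (Y → Fin q)) * N := Nat.mul_le_mul_right _ h2
    _ = (bad.card * N) * Fintype.card (Y → Fin q) := by ring
    _ ≤ _ := Nat.mul_le_mul_right _ h

theorem st_UP (F : Type u) [Field F] (h1 : ST_FO) (h2 : ST_HH) (h3 : ST_CF) : ST_UP F := by
  classical
  intro η hη
  obtain ⟨N, hN⟩ := exists_nat_ge (2 / η)
  obtain ⟨q, k, hNq, hkq, hqk, hkr⟩ := h3 (N + 1)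
  obtain ⟨G, Y, iG, dG, iY, dY, nG, s, t, x, bad, hbad, hg⟩ := h1 (N + 1) (Nat.succ_pos _)
  obtain ⟨H, A, hA0, hA1, hA2, hA3, hA4, hdis, hex⟩ := h2 q k hkq hqk
  have hq0 : 0 < q := by omega
  have hne : Nonempty (G × (Y → Fin q)) := ⟨(Classical.arbitrary G, fun _ => ⟨0, hq0⟩)⟩
  obtain ⟨b, hb⟩ : ∃ b : ℕ, b = Fintype.card (G × (Y → Fin q)) := ⟨_, rfl⟩
  have hb0 : 0 < b := by rw [hb]; exact Fintype.card_pos
  obtain ⟨ε⟩ : Nonempty (G × (Y → Fin q) ≃ Fin b) := ⟨Fintype.equivFinOfCardEq hb.symm⟩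
  obtain ⟨Z, hZ⟩ : ∃ Z : Vr → Matrix (G × (Y → Fin q)) (G × (Y → Fin q)) F,
      Z = fun v => mon (Ph s t x H v) (Wt F k s x H A v) := ⟨_, rfl⟩
  obtain ⟨T, hT⟩ : ∃ T : Finset (Fin q), T = (Finset.univ \ Finset.univ.biUnion A).image
      Prod.fst := ⟨_, rfl⟩
  have hTc : T.card ≤ 1 := by rw [hT]; exact Finset.card_image_le.trans hex
  have hN1 : (0:ℝ) < (N:ℝ) + 1 := by positivity
  refine ⟨b, hb0, fun v => (Z v).submatrix ε.symm ε.symm, ?_, ?_,
    ((Finset.univ.filter fun c : G × (Y → Fin q) => c.1 ∈ bad) ∪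
      (Finset.univ.filter fun c : G × (Y → Fin q) => c.2 (x c.1) ∈ T)).map ε.toEmbedding,
    ?_, ?_, ?_⟩
  · intro i a h
    cases i <;> simp [SY] at h
    · subst h
      ext p r
      rw [hZ]
      show (if ε.symm p = ε.symm r then (1:F) else 0) = ((1:F) • (1 : Matrix (Fin b) (Fin b) F)) p r
      rw [one_smul, Matrix.one_apply]
      simp only [EmbeddingLike.apply_eq_iff_eq]
    · subst h
      ext p r
      rw [hZ]
      show (if ε.symm p = ε.symm r then (0:F) else 0) = ((0:F) • (1 : Matrix (Fin b) (Fin b) F)) p r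
      rw [zero_smul, ite_self]
      rfl
  · have e1 : ((Z .e).submatrix ε.symm ε.symm).rank ≤ (Z .e).rank :=
      rank_submatrix_le (Z .e) ε.symm ε.symm
    obtain ⟨Tk, hTk⟩ : ∃ Tk : Finset (Fin q),
        Tk = Finset.univ.filter fun j : Fin q => (j : ℕ) < k := ⟨_, rfl⟩
    have e2 : (Z .e).rank ≤
        (Finset.univ.filter fun c : G × (Y → Fin q) => c.2 (x c.1) ∈ Tk).card := by
      refine rank_le_cols _ _ fun c hc a => ?_
      have h4 : ¬ ((c.2 (x c.1) : ℕ) < k) := by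
        intro h5
        apply hc
        rw [hTk]
        simpa using h5
      rw [hZ]
      show (if a = c then ind F ((c.2 (x c.1) : ℕ) < k) else 0) = 0
      rw [ind_neg h4, ite_self]
    have e3 : Tk.card ≤ k := by
      rw [hTk]
      have := Finset.card_le_card_of_injOn (s := Finset.univ.filter fun j : Fin q => (j : ℕ) < k)
        (t := Finset.range k) (fun j => (j : ℕ))
        (fun j hj => by simpa using hj) (fun a _ c _ hac => Fin.ext hac)
      simpa using this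
    have e4 := cnt2 (q := q) x Tk
    rw [← hb] at e4
    have e5 : ((Z .e).submatrix ε.symm ε.symm).rank * q ≤ k * b :=
      (Nat.mul_le_mul_right _ (e1.trans e2)).trans (e4.trans (Nat.mul_le_mul_right _ e3))
    have e6 : (((Z .e).submatrix ε.symm ε.symm).rank : ℝ) * q ≤ k * b := by exact_mod_cast e5
    have hq0' : (0:ℝ) < q := by exact_mod_cast hq0
    calc (((Z .e).submatrix ε.symm ε.symm).rank : ℝ) ≤ (k * b) / q := by
          rw [le_div_iff₀ hq0']
          exact e6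
      _ = (k : ℝ) / q * b := by ring
      _ ≤ _ := mul_le_mul_of_nonneg_right hkr (by positivity)
  · rw [Finset.card_map]
    have e1 := cnt3 (Y := Y) (q := q) bad (N + 1) hbad
    have e2 := cnt2 (q := q) x T
    rw [← hb] at e1 e2
    have e3 := Finset.card_union_le
      (Finset.univ.filter fun c : G × (Y → Fin q) => c.1 ∈ bad)
      (Finset.univ.filter fun c : G × (Y → Fin q) => c.2 (x c.1) ∈ T)
    obtain ⟨n1, hn1⟩ : ∃ n1 : ℕ, n1 = (Finset.univ.filter fun c : G × (Y → Fin q) =>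
      c.1 ∈ bad).card := ⟨_, rfl⟩
    obtain ⟨n2, hn2⟩ : ∃ n2 : ℕ, n2 = (Finset.univ.filter fun c : G × (Y → Fin q) =>
      c.2 (x c.1) ∈ T).card := ⟨_, rfl⟩
    rw [← hn1] at e1 e3
    rw [← hn2] at e2 e3
    have e4 : n2 * (N + 1) ≤ b := by
      calc n2 * (N + 1) ≤ n2 * q := Nat.mul_le_mul_left _ hNq
        _ ≤ T.card * b := e2
        _ ≤ 1 * b := Nat.mul_le_mul_right _ hTc
        _ = b := one_mul _
    have e5 : ((n1 + n2 : ℕ) : ℝ) * ((N:ℝ) + 1) ≤ 2 * b := by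
      have : (n1 + n2) * (N + 1) ≤ 2 * b := by
        rw [Nat.add_mul]
        omega
      exact_mod_cast this
    have e6 : (2:ℝ) ≤ η * ((N:ℝ) + 1) := by
      have h5 : 2 ≤ η * N := by
        rw [div_le_iff₀ hη] at hN
        linarith
      linarith
    have e7 : ((n1 + n2 : ℕ) : ℝ) ≤ η * b := by
      have hb' : (0:ℝ) ≤ b := by positivity
      have h6 : ((n1 + n2 : ℕ) : ℝ) * ((N:ℝ) + 1) ≤ (η * b) * ((N:ℝ) + 1) := by
        refine e5.trans ?_
        calc (2:ℝ) * b ≤ (η * ((N:ℝ) + 1)) * b := mul_le_mul_of_nonneg_right e6 hb'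
          _ = _ := by ring
      exact le_of_mul_le_mul_right h6 hN1
    refine le_trans ?_ e7
    exact_mod_cast e3
  · intro m c hc a
    have hc1 : ε.symm c ∉ (Finset.univ.filter fun c : G × (Y → Fin q) => c.1 ∈ bad) ∪
        (Finset.univ.filter fun c : G × (Y → Fin q) => c.2 (x c.1) ∈ T) := by
      intro h
      apply hc
      exact Finset.mem_map.2 ⟨_, h, ε.apply_symm_apply c⟩
    obtain ⟨c0, hc0⟩ : ∃ c0, c0 = ε.symm c := ⟨_, rfl⟩
    rw [← hc0] at hc1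
    rw [Finset.mem_union, not_or] at hc1
    have hb1 : c0.1 ∉ bad := by
      intro h
      exact hc1.1 (Finset.mem_filter.2 ⟨Finset.mem_univ _, h⟩)
    have hb2 : c0.2 (x c0.1) ∉ T := by
      intro h
      exact hc1.2 (Finset.mem_filter.2 ⟨Finset.mem_univ _, h⟩)
    have hb3 : ∃ i, pa s x c0 ∈ A i := by
      by_contra hcon
      apply hb2
      rw [hT]
      refine Finset.mem_image.2 ⟨pa s x c0, ?_, rfl⟩
      rw [Finset.mem_sdiff]
      refine ⟨Finset.mem_univ _, fun h => hcon ?_⟩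
      obtain ⟨i, _, hi⟩ := Finset.mem_biUnion.1 h
      exact ⟨i, hi⟩
    obtain ⟨g1, g2, g3, g4, g5, g6, g7, g8⟩ := hg c0.1 hb1
    have hok := ok_all F k s t x H A c0 ⟨g1, g2, g3, g4, g5, g6, g7, g8⟩ hA0 hA1 hA2 hA3 hA4
      hdis hb3 (pr.get m) (List.get_mem pr m)
    rw [Matrix.submatrix_mul_equiv]
    show (Z ((SY F).l m) * Z ((SY F).r m)) (ε.symm a) (ε.symm c) =
      Z ((SY F).o m) (ε.symm a) (ε.symm c)
    rw [← hc0, hZ]
    exact mon_ok _ _ _ _ _ _ c0 hok.1 hok.2 _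
  · intro i j a hij h
    cases i <;> try (simp [SY] at h; done)
    rename_i i
    cases j <;> try (simp [SY] at h; done)
    rename_i j
    have hij' : i = j ∧ a = 1 := by
      simp only [SY] at h
      by_cases e : i = j
      · rw [if_pos e] at h
        exact ⟨e, (Option.some.inj h).symm⟩
      · rw [if_neg e] at h
        exact absurd h (by simp)
    obtain ⟨rfl, rfl⟩ := hij'
    ext p r
    rw [hZ]
    show (if ε.symm p = ε.symm r then ind F (pa s x (ε.symm r) ∈ A i) else 0) -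
      (if ε.symm p = ε.symm r then ind F (pa s x (ε.symm r) ∈ A i) - 1 else 0) =
      ((1:F) • (1 : Matrix (Fin b) (Fin b) F)) p r
    rw [one_smul, Matrix.one_apply]
    simp only [EmbeddingLike.apply_eq_iff_eq]
    split_ifs <;> ring

end Pool.Agent.Helper17.FR
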